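import Pool.Agent.Helper13.LT.Cc

/-!
PROJECT LT2, block F1-F3: integrality of the coefficients `cc` for every level.
-/

set_option autoImplicit false

namespace Pool.Agent.Helper13.LU

open Finset
open Pool.Agent.Helper34.LT
open Pool.Agent.Helper13.LT

private theorem cc_val_le {q : ℕ} (hq : q.Prime) {v p : ℕ} (h : q ^ v ∣ p.factorial) : v ≤ p := by
  have := Fact.mk hq
  have h1 : v ≤ padicValNat q p.factorial :=
    (padicValNat_dvd_iff_le (Nat.factorial_ne_zero p)).1 h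
  have h2 := sub_one_mul_padicValNat_factorial (p := q) p
  have h3 : 1 ≤ q - 1 := by have := hq.two_le; omega
  have h4 : padicValNat q p.factorial ≤ (q - 1) * padicValNat q p.factorial :=
    Nat.le_mul_of_pos_left _ h3
  omega

private theorem cc_dvd {q : ℕ} {m : ℕ} (hm : Nat.Coprime q m) (hm0 : 0 < m) {p : ℕ}
    (hmp : m ∣ p.factorial) (k : ℕ) :
    (m : ℤ) ∣ ∏ i ∈ range p, ((q : ℤ) * (i : ℤ) - (k : ℤ)) := by
  have hcop : IsCoprime (q : ℤ) (m : ℤ) :=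
    Nat.isCoprime_iff_coprime.2 hm
  obtain ⟨u, w, huw⟩ := hcop
  obtain ⟨c, hc⟩ : ∃ c : ℕ, (m : ℤ) ∣ (-(k : ℤ) * u) - (c : ℤ) := by
    refine ⟨((-(k : ℤ) * u) % (m : ℤ)).toNat, ?_⟩
    have h1 : 0 ≤ (-(k : ℤ) * u) % (m : ℤ) := Int.emod_nonneg _ (by omega)
    rw [Int.toNat_of_nonneg h1]
    exact Int.dvd_self_sub_emod
  have hmod : ∀ i : ℕ, ((q : ℤ) * (i : ℤ) - (k : ℤ)) ≡ ((q : ℤ) * ((c : ℤ) + (i : ℤ))) [ZMOD (m : ℤ)] := by
    intro i
    rw [Int.modEq_iff_dvd]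
    obtain ⟨d, hd⟩ := hc
    refine ⟨-(q : ℤ) * d + k * w, ?_⟩
    have hd' : (c : ℤ) = -(k : ℤ) * u - m * d := by linarith
    rw [hd']
    linear_combination (-(k : ℤ)) * huw
  have hprod : (∏ i ∈ range p, ((q : ℤ) * (i : ℤ) - (k : ℤ))) ≡
      ∏ i ∈ range p, ((q : ℤ) * ((c : ℤ) + (i : ℤ))) [ZMOD (m : ℤ)] :=
    Int.ModEq.prod fun i _ => hmod i
  have hasc : ∏ i ∈ range p, ((q : ℤ) * ((c : ℤ) + (i : ℤ))) =
      (q : ℤ) ^ p * ((c.ascFactorial p : ℕ) : ℤ) := by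
    rw [Finset.prod_mul_distrib, Finset.prod_const, Finset.card_range, Nat.ascFactorial_eq_prod_range]
    push_cast
    rfl
  rw [hasc] at hprod
  have h5 : (m : ℤ) ∣ (q : ℤ) ^ p * ((c.ascFactorial p : ℕ) : ℤ) :=
    Dvd.dvd.mul_left (Int.natCast_dvd_natCast.2 (hmp.trans (Nat.factorial_dvd_ascFactorial c p))) _
  exact (Int.ModEq.dvd_iff hprod).2 h5

private theorem cc_split {q : ℕ} (p : ℕ) :
    ∃ d m : ℕ, p.factorial = d * m ∧ d ∣ q ^ p ∧ Nat.Coprime q m := by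
  obtain ⟨m, hm⟩ := Nat.gcd_dvd_left p.factorial (q ^ p)
  refine ⟨Nat.gcd p.factorial (q ^ p), m, hm, Nat.gcd_dvd_right _ _, ?_⟩
  by_contra hcon
  obtain ⟨l, hl, hlq, hlm⟩ := Nat.Prime.not_coprime_iff_dvd.1 hcon
  have := Fact.mk hl
  have h1 : l ^ (padicValNat l p.factorial) ∣ p.factorial := pow_padicValNat_dvd
  have h2 : padicValNat l p.factorial ≤ p := cc_val_le hl h1
  have h3 : l ^ (padicValNat l p.factorial) ∣ q ^ p :=
    (pow_dvd_pow l h2).trans (pow_dvd_pow_of_dvd hlq p)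
  have h4 := Nat.dvd_gcd h1 h3
  have h5 : l ^ (padicValNat l p.factorial + 1) ∣ p.factorial := by
    rw [pow_succ]
    conv_rhs => rw [hm]
    exact mul_dvd_mul h4 hlm
  have h6 := (padicValNat_dvd_iff_le (Nat.factorial_ne_zero p)).1 h5
  omega

/-- PROOF. `p! = d m` with `m` prime to `q`, `d ∣ q^p` (`d = gcd(p!, q^p)`; for a prime `l` dividing `q` the
exponent of `l` in `p!` is at most `p`). With `q r ≡ 1 mod m`:
`r^p ∏ (q i - k) ≡ ∏ (i - r k) mod m`, a product of `p` consecutive integers, divisible by `p!`,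
so by `m`; hence `m ∣ ∏_(i<p) (q i - k)`. And `q^p cc (k/q) p = ∏ (q i - k) / p!`. So
`q^(2p) cc (k/q) p = q^p ∏ (q i - k) / (d m)` is an integer. -/
theorem cc_int {q : ℕ} (hq : 1 < q) (k p : ℕ) :
    ∃ z : ℤ, (q : ℝ) ^ (2 * p) * cc ((k : ℝ) / (q : ℝ)) p = z := by
  obtain ⟨d, m, hdm, ⟨e, he⟩, hcop⟩ := cc_split (q := q) p
  have hm0 : 0 < m := by
    rcases Nat.eq_zero_or_pos m with h | h
    · rw [h, mul_zero] at hdm
      exact absurd hdm (Nat.factorial_ne_zero p)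
    · exact h
  have hd0 : 0 < d := by
    rcases Nat.eq_zero_or_pos d with h | h
    · rw [h, zero_mul] at hdm
      exact absurd hdm (Nat.factorial_ne_zero p)
    · exact h
  obtain ⟨t, ht⟩ := cc_dvd hcop hm0 (Dvd.intro_left _ hdm.symm) k
  refine ⟨(e : ℤ) * t, ?_⟩
  have hq0 : (q : ℝ) ≠ 0 := Nat.cast_ne_zero.2 (by omega)
  have hf0 : ((p.factorial : ℕ) : ℝ) ≠ 0 := Nat.cast_ne_zero.2 (Nat.factorial_ne_zero p)
  have h1 : cc ((k : ℝ) / (q : ℝ)) p =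
      (∏ i ∈ range p, ((q : ℝ) * (i : ℝ) - (k : ℝ))) / ((q : ℝ) ^ p * (p.factorial : ℝ)) := by
    unfold cc
    have h2 : ((q : ℝ) ^ p * (p.factorial : ℝ)) = ∏ i ∈ range p, ((q : ℝ) * ((i : ℝ) + 1)) := by
      rw [Finset.prod_mul_distrib, Finset.prod_const, Finset.card_range,
        ← Finset.prod_range_add_one_eq_factorial]
      push_cast
      rfl
    rw [h2, ← Finset.prod_div_distrib]
    refine Finset.prod_congr rfl fun i _ => ?_
    have hi : ((i : ℝ) + 1) ≠ 0 := by positivity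
    field_simp
  have h3 : (∏ i ∈ range p, ((q : ℝ) * (i : ℝ) - (k : ℝ))) = (m : ℝ) * (t : ℝ) := by
    have := congrArg (fun z : ℤ => (z : ℝ)) ht
    simpa using this
  have h4 : (p.factorial : ℝ) = (d : ℝ) * (m : ℝ) := by exact_mod_cast hdm
  have hm1 : (m : ℝ) ≠ 0 := Nat.cast_ne_zero.2 hm0.ne'
  have hd1 : (d : ℝ) ≠ 0 := Nat.cast_ne_zero.2 hd0.ne'
  have h5 : (q : ℝ) ^ p = (d : ℝ) * (e : ℝ) := by exact_mod_cast he
  have he1 : (e : ℝ) ≠ 0 := by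
    intro h
    rw [h, mul_zero] at h5
    exact pow_ne_zero p hq0 h5
  rw [h1, h3, h4, two_mul, pow_add]
  push_cast
  rw [h5]
  field_simp

end Pool.Agent.Helper13.LU
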