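import Pool.Agent.Helper13.LT.Sga
import Pool.Agent.Helper13.LT.Mx
import Pool.Agent.Helper65.LU.Fd

/-!
PROJECT LT2, block F1-F3 for arbitrary `a`, `b` with `a + b` prime to `q`: the semigroup of pole orders.
-/

set_option autoImplicit false

namespace Pool.Agent.Helper13.LU

open Finset Filter Topology
open Pool.Agent.Helper34.LT hiding Mt tauF Fac
open Pool.Agent.Helper65.LU Pool.Agent.Helper13.LT Pool.Agent.Helper11.LT

theorem one_lt_of {q a : ℕ} (hq : q ≠ 0) (ha : ¬ q ∣ a) : 1 < q := by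
  rcases Nat.lt_or_ge 1 q with h | h
  · exact h
  · have h1 : q = 1 := by omega
    exact absurd (h1 ▸ one_dvd a) ha

private theorem Sga_mem {q a b : ℕ} (u : Phi q a b) : 1 ≤ (u : ℕ) ∧ (u : ℕ) ≤ q - 1 ∧
    q < ((u : ℕ) * a) % q + ((u : ℕ) * b) % q := by
  have h := u.2
  unfold Phi at h
  rw [mem_filter, mem_Icc] at h
  exact ⟨h.1.1, h.1.2, h.2⟩

theorem cls_lt {q : ℕ} (hq : 1 < q) (a b n : ℕ) : cls q a b n < q := by
  have : NeZero q := ⟨by omega⟩
  exact ZMod.val_lt _

theorem cls_spec {q a b : ℕ} (hq : 1 < q) (hab : Nat.Coprime (a + b) q) (n : ℕ) :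
    cls q a b n * (a + b) ≡ n [MOD q] := by
  have : NeZero q := ⟨by omega⟩
  have h0 := ZMod.coe_mul_inv_eq_one (a + b) hab
  rw [← ZMod.natCast_eq_natCast_iff, Nat.cast_mul]
  unfold cls
  rw [ZMod.natCast_zmod_val, mul_assoc, mul_comm _ ((a + b : ℕ) : ZMod q), h0, mul_one]

theorem cls_eq {q a b : ℕ} (hq : 1 < q) (hab : Nat.Coprime (a + b) q) {k n : ℕ} (hk : k < q)
    (h : k * (a + b) ≡ n [MOD q]) : cls q a b n = k := by
  have : NeZero q := ⟨by omega⟩
  have h0 := ZMod.coe_mul_inv_eq_one (a + b) hab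
  rw [← ZMod.natCast_eq_natCast_iff, Nat.cast_mul] at h
  unfold cls
  rw [← h, mul_assoc, h0, mul_one, ZMod.val_natCast, Nat.mod_eq_of_lt hk]

theorem bt_lt_one {q : ℕ} (hq : 1 < q) (a b n : ℕ) : bt q a b n < 1 := by
  unfold bt al
  have hq0 : 0 < q := by omega
  have h0 : (0 : ℝ) < q := by exact_mod_cast hq0
  rw [div_lt_one h0]
  exact_mod_cast Nat.mod_lt _ hq0

theorem Nk_le {q : ℕ} (hq : 1 < q) (a b k : ℕ) : Nk q a b k ≤ 2 * q - 2 := by
  have hq0 : 0 < q := by omega
  have h4 := Nat.mod_lt (k * a) hq0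
  have h5 := Nat.mod_lt (k * b) hq0
  unfold Nk
  omega

private theorem Sga_kk {q a b : ℕ} (u : Phi q a b) : kk q a b u + q = Nk q a b u := by
  have h := (Sga_mem u).2.2
  unfold kk Nk
  omega

private theorem Sga_cls {q a b : ℕ} (hq : 1 < q) (hab : Nat.Coprime (a + b) q) (u : Phi q a b) :
    cls q a b (kk q a b u) = u := by
  obtain ⟨h1, h2, -⟩ := Sga_mem u
  exact cls_eq hq hab (by omega) (kk_modEq u).symm

private theorem Sga_cls_zero (q a b : ℕ) : cls q a b 0 = 0 := by
  unfold cls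
  rw [Nat.cast_zero, zero_mul, ZMod.val_zero]

private theorem Sga_Nk_zero (q a b : ℕ) : Nk q a b 0 = 0 := by
  unfold Nk
  simp

/-- the gaps are the numbers `kk u`.
PROOF. Let `k = cls n`. If `n < Nk k` then `Nk k - n` is a positive multiple of `q` (`Nk_modEq`,
`cls_spec`) smaller than `2 q`, so `Nk k = n + q`. `n = 0` is impossible (`cls 0 = 0`, `Nk 0 = 0`), so
`Nk k > q`, `k ∈ Phi` and `kk k = n`. Conversely if `kk u = n` then `cls n = u` (`cls_eq`, `kk_modEq`)
and `Nk u = n + q > n`. -/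
theorem not_sg_iff {q a b : ℕ} (hq : 1 < q) (hab : Nat.Coprime (a + b) q) (n : ℕ) :
    ¬ sg q a b n ↔ ∃ u : Phi q a b, kk q a b u = n := by
  constructor
  · intro h
    unfold sg at h
    rw [not_le] at h
    have hle := Nk_le hq a b (cls q a b n)
    have h1 : Nk q a b (cls q a b n) ≡ n [MOD q] :=
      (Nk_modEq q a b (cls q a b n)).trans (cls_spec hq hab n)
    have h2 : q ∣ Nk q a b (cls q a b n) - n := (Nat.modEq_iff_dvd' h.le).1 h1.symm
    obtain ⟨c, hc⟩ := h2
    have h3 : c = 1 := by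
      have h4 : c ≠ 0 := by
        rintro rfl
        omega
      have h5 : c < 2 := by
        by_contra h6
        have h7 : q * 2 ≤ q * c := Nat.mul_le_mul_left q (by omega)
        omega
      omega
    rw [h3, mul_one] at hc
    have hn : n ≠ 0 := by
      rintro rfl
      rw [Sga_cls_zero, Sga_Nk_zero] at hc
      omega
    have hk0 : cls q a b n ≠ 0 := by
      intro h0
      rw [h0, Sga_Nk_zero] at hc
      omega
    have hkq := cls_lt hq a b n
    have hmem : cls q a b n ∈ Phi q a b := by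
      unfold Phi
      rw [mem_filter, mem_Icc]
      refine ⟨⟨by omega, by omega⟩, ?_⟩
      have h8 : Nk q a b (cls q a b n) = n + q := by omega
      unfold Nk at h8
      omega
    refine ⟨⟨_, hmem⟩, ?_⟩
    have h9 := Sga_kk (⟨_, hmem⟩ : Phi q a b)
    change kk q a b (cls q a b n) + q = Nk q a b (cls q a b n) at h9
    change kk q a b (cls q a b n) = n
    omega
  · rintro ⟨u, rfl⟩ h
    unfold sg at h
    rw [Sga_cls hq hab, ← Sga_kk] at h
    omega

/-- PROOF. `cls (kk u) = u`. -/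
theorem kk_inj {q a b : ℕ} (hq : 1 < q) (hab : Nat.Coprime (a + b) q) :
    Function.Injective fun u : Phi q a b => kk q a b u := by
  intro u v h
  apply Subtype.ext
  rw [← Sga_cls hq hab u, ← Sga_cls hq hab v]
  exact congrArg (cls q a b) h

/-- PROOF. `not_sg_iff`, `kk_le`, `1 < q`. -/
theorem sg_of_le {q a b : ℕ} (hq : 1 < q) (hab : Nat.Coprime (a + b) q) {n : ℕ} (h : q - 1 ≤ n) :
    sg q a b n := by
  by_contra hn
  obtain ⟨u, hu⟩ := (not_sg_iff hq hab n).1 hn
  have h1 := kk_le u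
  omega

/-- `1` is a gap.
PROOF. Let `k = cls 1`; it is a unit mod `q` (`cls_spec`), so prime to `q`. If `sg 1`, then `Nk k ≤ 1`,
`Nk k ≡ 1`, so `Nk k = 1` (as `1 < q`), so one of `(k a) % q`, `(k b) % q` is `0`, so `q` divides `a` or
`b`, contradiction. So `1` is a gap, `1 = kk u` (`not_sg_iff`),
and `u = cls 1` (`cls_eq`, `kk_modEq`). -/
theorem exists_kk_one {q a b : ℕ} (hq : 1 < q) (ha : ¬ q ∣ a) (hb : ¬ q ∣ b)
    (hab : Nat.Coprime (a + b) q) : ∃ u : Phi q a b, kk q a b u = 1 ∧ Nat.Coprime u q := by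
  have hns : ¬ sg q a b 1 := by
    intro h
    unfold sg at h
    have h1 : Nk q a b (cls q a b 1) ≡ 1 [MOD q] :=
      (Nk_modEq q a b (cls q a b 1)).trans (cls_spec hq hab 1)
    have h2 : Nk q a b (cls q a b 1) = 1 := by
      have h3 : Nk q a b (cls q a b 1) % q = 1 % q := h1
      rw [Nat.mod_eq_of_lt (by omega), Nat.mod_eq_of_lt (by omega)] at h3
      exact h3
    have h3 : Nat.Coprime q (cls q a b 1) := by
      have h8 : Nat.gcd (cls q a b 1 * (a + b)) q = 1 := by
        rw [(cls_spec hq hab 1).gcd_eq, Nat.gcd_one_left]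
      exact (Nat.Coprime.coprime_dvd_left (Dvd.intro _ rfl) h8).symm
    unfold Nk at h2
    rcases (by omega : (cls q a b 1 * a) % q = 0 ∨ (cls q a b 1 * b) % q = 0) with h5 | h5
    · exact ha (h3.dvd_of_dvd_mul_left (Nat.dvd_of_mod_eq_zero h5))
    · exact hb (h3.dvd_of_dvd_mul_left (Nat.dvd_of_mod_eq_zero h5))
  obtain ⟨u, hu⟩ := (not_sg_iff hq hab 1).1 hns
  refine ⟨u, hu, ?_⟩
  have h7 : 1 ≡ (u : ℕ) * (a + b) [MOD q] := by
    have := kk_modEq u
    rwa [hu] at this
  have h8 : Nat.gcd ((u : ℕ) * (a + b)) q = 1 := by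
    rw [← h7.gcd_eq, Nat.gcd_one_left]
  exact Nat.Coprime.coprime_dvd_left (Dvd.intro _ rfl) h8

theorem zt_pow_q {q : ℕ} (hq : 1 < q) : zt q ^ q = 1 :=
  (Complex.isPrimitiveRoot_exp q (by omega)).pow_eq_one

/-- PROOF. `kk_modEq`, `zt_pow_q`. -/
theorem zt_pow_kk {q a b : ℕ} (hq : 1 < q) (u : Phi q a b) :
    zt q ^ ((u : ℕ) * (a + b)) = zt q ^ kk q a b u := by
  have h1 : ∀ n : ℕ, zt q ^ n = zt q ^ (n % q) := by
    intro n
    conv_lhs => rw [← Nat.mod_add_div n q]
    rw [pow_add, pow_mul, zt_pow_q hq, one_pow, mul_one]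
  rw [h1, h1 (kk q a b u), (kk_modEq u : _ % q = _ % q)]

/-- PROOF. `sg_of_le`. -/
theorem infinite_sg {q a b : ℕ} (hq : 1 < q) (hab : Nat.Coprime (a + b) q) :
    (Set.ofPred (sg q a b)).Infinite := by
  rw [Set.infinite_iff_exists_gt]
  intro n
  exact ⟨max (n + 1) (q - 1), sg_of_le hq hab (le_max_right _ _),
    lt_of_lt_of_le (Nat.lt_succ_self n) (le_max_left _ _)⟩

theorem sg_nn {q a b : ℕ} (hq : 1 < q) (hab : Nat.Coprime (a + b) q) (j : ℕ) : sg q a b (nn q a b j) := by
  exact Nat.nth_mem_of_infinite (infinite_sg hq hab) j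

theorem nn_strictMono {q a b : ℕ} (hq : 1 < q) (hab : Nat.Coprime (a + b) q) :
    StrictMono (nn q a b) := by
  exact Nat.nth_strictMono (infinite_sg hq hab)

theorem nn_zero {q a b : ℕ} (hq : 1 < q) (hab : Nat.Coprime (a + b) q) : nn q a b 0 = 0 := by
  exact Nat.nth_zero_of_zero (sg_zero q a b)

private theorem Sgb_gaps {q a b : ℕ} (hq : 1 < q) (hab : Nat.Coprime (a + b) q) :
    ((Finset.univ : Finset (Phi q a b)).image fun u : Phi q a b => kk q a b u).card = gF q a b := by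
  rw [Finset.card_image_of_injective _ (kk_inj hq hab), Finset.card_univ, Fintype.card_coe]
  rfl

private theorem Sgb_count (p : ℕ → Prop) [DecidablePred p] (n : ℕ) :
    Nat.count p n + ((range n).filter fun m => ¬ p m).card = n := by
  rw [Nat.count_eq_card_filter_range, Finset.card_filter_add_card_filter_not, card_range]

/-- The number of `n < nn j` with `sg n` is `j`, the number of gaps is `gF`, so `nn j ≤ j + gF`. -/
theorem nn_le {q a b : ℕ} (hq : 1 < q) (hab : Nat.Coprime (a + b) q) (j : ℕ) :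
    nn q a b j ≤ gF q a b + j := by
  classical
  have h1 : Nat.count (sg q a b) (nn q a b j) = j := Nat.count_nth_of_infinite (infinite_sg hq hab) j
  have h2 := Sgb_count (sg q a b) (nn q a b j)
  have h4 : ((range (nn q a b j)).filter fun m => ¬ sg q a b m).card ≤ gF q a b := by
    rw [← Sgb_gaps hq hab]
    refine Finset.card_le_card fun m hm => ?_
    rw [mem_filter] at hm
    obtain ⟨u, hu⟩ := (not_sg_iff hq hab m).1 hm.2
    rw [mem_image]
    exact ⟨u, mem_univ _, hu⟩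
  omega

/-- Let `n = gF + j ≥ q - 1`. Then `sg n`, and all gaps are below `n`, so the number of `m < n` with `sg m` is
`n - gF = j`. -/
theorem nn_eq {q a b : ℕ} (hq : 1 < q) (hab : Nat.Coprime (a + b) q) {j : ℕ} (hj : q ≤ j) :
    nn q a b j = gF q a b + j := by
  classical
  have hn : sg q a b (gF q a b + j) := sg_of_le hq hab (by omega)
  have h2 := Sgb_count (sg q a b) (gF q a b + j)
  have h4 : ((range (gF q a b + j)).filter fun m => ¬ sg q a b m).card = gF q a b := by
    refine (congrArg Finset.card ?_).trans (Sgb_gaps hq hab)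
    ext m
    rw [mem_filter, mem_image, mem_range]
    constructor
    · rintro ⟨-, h⟩
      obtain ⟨u, hu⟩ := (not_sg_iff hq hab m).1 h
      exact ⟨u, mem_univ _, hu⟩
    · rintro ⟨u, -, hu⟩
      have h5 := kk_le u
      have hu' : kk q a b u = m := hu
      exact ⟨by omega, (not_sg_iff hq hab m).2 ⟨u, hu'⟩⟩
  have h5 : Nat.count (sg q a b) (gF q a b + j) = j := by omega
  have h6 := Nat.nth_count hn
  rw [h5] at h6
  exact h6

theorem gF_pos {q a b : ℕ} (hq : 1 < q) (ha : ¬ q ∣ a) (hb : ¬ q ∣ b)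
    (hab : Nat.Coprime (a + b) q) : 0 < gF q a b := by
  obtain ⟨u, -⟩ := exists_kk_one hq ha hb hab
  exact Finset.card_pos.2 ⟨_, u.2⟩

end Pool.Agent.Helper13.LU
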