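import Pool.Agent.Helper13.LU.Mta
import Pool.Agent.Helper13.LT.Ta

/-!
PROJECT LT2, block F1-F3 for arbitrary `a`, `b` with `a + b` prime to `q`: `Fn` in `RT (q^q) 0`.
-/

set_option autoImplicit false

namespace Pool.Agent.Helper13.LU

open Finset Filter Topology
open Pool.Agent.Helper34.LT hiding Mt tauF Fac
open Pool.Agent.Helper65.LU Pool.Agent.Helper13.LT Pool.Agent.Helper11.LT

/-- the weight of tau -/
noncomputable def w0 (q a b : ℕ) : ℕ := ∑ j ∈ range q, (gF q a b + j - nn q a b j)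

/-- PROOF. The terms with `j ≥ g` are `0` (`nn_eq`), the others natural numbers (`nn_le`). -/
theorem sum_exp_eq {q a b : ℕ} (hq : 1 < q) (hab : Nat.Coprime (a + b) q)
    {N : ℕ} (hN : q ≤ N) :
    ∑ j : Fin N, (((gF q a b + j : ℕ) : ℤ) + -(nn q a b j : ℤ)) = (w0 q a b : ℤ) := by
  rw [Fin.sum_univ_eq_sum_range (fun j : ℕ =>
    (((gF q a b + j : ℕ) : ℤ) + -(nn q a b j : ℤ))) N]
  rw [← Finset.sum_subset (Finset.range_subset_range.2 hN)]
  · unfold w0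
    rw [Nat.cast_sum]
    refine Finset.sum_congr rfl fun j _ => ?_
    rw [Nat.cast_sub (nn_le hq hab j)]
    ring
  · intro j _ hj
    rw [Finset.mem_range, not_lt] at hj
    rw [nn_eq hq hab hj]
    ring

/-- PROOF. `Mt_eq` and `hl_ps` with `φ = ej`. -/
theorem Mt_ps {q a b : ℕ} (hq : 1 < q) (i j : ℕ) :
    PS (fun m : Phi q a b → ℕ => (ej q a b i j (wtm q a b m) : ℂ) / ∏ u, ((m u).factorial : ℂ))
      (fun t => Mt q a b t i j) := by
  have h := hl_ps (q := q) (a := a) (b := b) (φ := fun l => (ej q a b i j l : ℂ)) (C := 1)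
    (fun l => ej_norm_le hq a b i j l)
  have h2 : (fun t : Phi q a b → ℂ => Mt q a b t i j) =
      fun t => ∑' l, (ej q a b i j l : ℂ) * hl q a b t l := funext fun t => Mt_eq hq t i j
  rw [h2]
  exact h

/-- The rescaled conjugated entries.
PROOF. `Mt_ps`, `PS.scale` with `y u = q^(kk u)`, `PS.smul`, `RT_iff`: `∏ (q^(kk u))^(m u) = q^(wtm m)`. If
`ej ≠ 0`, `wtm m + nn j = g + i + q p` (`ej_ne`), the coefficient times `m!` is `q^(q p) cc (bt (nn j)) p`, an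
integer by `cc_int` (`bt_eq`) and `2 p ≤ q p`. -/
theorem entry_RT {q a b : ℕ} (hq : 1 < q) (i j : ℕ) :
    RT 1 0 (fun t : Phi q a b → ℂ =>
      (q : ℂ) ^ (-((gF q a b + i : ℕ) : ℤ) + (nn q a b j : ℤ)) *
        Mt q a b (fun u => (q : ℂ) ^ kk q a b u * t u) i j) := by
  have hq0 : (q : ℂ) ≠ 0 := by exact_mod_cast (Nat.ne_zero_of_lt hq)
  rw [RT_iff le_rfl]
  refine ⟨_, ((Mt_ps hq i j).scale (fun u => (q : ℂ) ^ kk q a b u)).smul _, fun m => ?_⟩
  have hw : ∏ u : Phi q a b, ((q : ℂ) ^ kk q a b u) ^ m u = (q : ℂ) ^ wtm q a b m := by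
    unfold wtm
    rw [← Finset.prod_pow_eq_pow_sum]
    exact Finset.prod_congr rfl fun u _ => (pow_mul _ _ _).symm
  have hf : (∏ u : Phi q a b, ((m u).factorial : ℂ)) ≠ 0 :=
    Finset.prod_ne_zero_iff.2 fun u _ => by exact_mod_cast (m u).factorial_ne_zero
  by_cases h0 : ej q a b i j (wtm q a b m) = 0
  · exact ⟨0, by rw [h0]; simp⟩
  · obtain ⟨p, hp, hv⟩ := ej_ne h0
    obtain ⟨k, hk⟩ := bt_eq q a b (nn q a b j)
    obtain ⟨z, hz⟩ := cc_int hq k p
    refine ⟨(q : ℤ) ^ (q * p - 2 * p) * z, ?_⟩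
    rw [hw, hv, hk]
    have h2 : 2 * p ≤ q * p := Nat.mul_le_mul_right p hq
    have h3 : ((q : ℂ) ^ (-((gF q a b + i : ℕ) : ℤ) + (nn q a b j : ℤ))) *
        (q : ℂ) ^ wtm q a b m = (q : ℂ) ^ (q * p) := by
      rw [← zpow_natCast (q : ℂ) (wtm q a b m), ← zpow_add₀ hq0, ← zpow_natCast (q : ℂ) (q * p)]
      congr 1
      have h4 : ((wtm q a b m : ℕ) : ℤ) + (nn q a b j : ℤ) =
          ((gF q a b + i : ℕ) : ℤ) + ((q * p : ℕ) : ℤ) := by exact_mod_cast hp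
      linarith
    have h5 : (q : ℂ) ^ (q * p) = (q : ℂ) ^ (q * p - 2 * p) * (q : ℂ) ^ (2 * p) := by
      rw [← pow_add, Nat.sub_add_cancel h2]
    have h6 : (q : ℂ) ^ (2 * p) * ((cc ((k : ℝ) / (q : ℝ)) p : ℝ) : ℂ) = (z : ℂ) := by
      exact_mod_cast congrArg (fun x : ℝ => (x : ℂ)) hz
    rw [Nat.cast_one, one_pow, one_mul, Int.cast_mul, Int.cast_pow, Int.cast_natCast, ← h6]
    have h7 : ∀ A C F W : ℂ, F ≠ 0 → A * (C / F * W) * F = A * W * C := by
      intro A C F W hF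
      field_simp
    rw [h7 _ _ _ _ hf, h3, h5, mul_assoc]

/-- PROOF. `RT.det` for `entry_RT`; by `det_zpow`, `sum_exp_eq` this determinant is
`q^(-w0) * (trn (Mt (q^kk t)) N).det`; multiply by `q^w0` (`RT.zsmul`); then `RT.shrink` with `E = q^q`,
`e u = q^(kk u)` (`kk_le`). -/
theorem Fn_RT {q a b : ℕ} (hq : 1 < q) (hab : Nat.Coprime (a + b) q)
    {N : ℕ} (hN : q ≤ N) :
    RT (q ^ q) 0 (fun t : Phi q a b → ℂ => (trn (Mt q a b t) N).det) := by
  have hq0 : (q : ℂ) ≠ 0 := by exact_mod_cast (Nat.ne_zero_of_lt hq)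
  have h1 := RT.det (N := N) (D := 1) le_rfl
    (f := fun i j => (fun t : Phi q a b → ℂ =>
      (q : ℂ) ^ (-((gF q a b + (i : ℕ) : ℕ) : ℤ) + (nn q a b j : ℤ)) *
        Mt q a b (fun u => (q : ℂ) ^ kk q a b u * t u) i j))
    (fun i j => entry_RT hq i j)
  have h2 := RT.zsmul le_rfl h1 ((q : ℤ) ^ w0 q a b)
  have h3' : (fun z : Phi q a b → ℂ => (((q : ℤ) ^ w0 q a b : ℤ) : ℂ) *
      (Matrix.of fun i j : Fin N => (q : ℂ) ^ (-((gF q a b + (i : ℕ) : ℕ) : ℤ) + (nn q a b j : ℤ)) *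
        Mt q a b (fun u => (q : ℂ) ^ kk q a b u * z u) i j).det) =
      fun z => (trn (Mt q a b (fun u => (q : ℂ) ^ kk q a b u * z u)) N).det := by
    funext z
    have h4 := det_zpow hq0 (fun i : Fin N => -((gF q a b + (i : ℕ) : ℕ) : ℤ))
      (fun j : Fin N => (nn q a b j : ℤ))
      (trn (Mt q a b (fun u => (q : ℂ) ^ kk q a b u * z u)) N)
    have h5 : ∑ i : Fin N, (-((gF q a b + (i : ℕ) : ℕ) : ℤ) + (nn q a b i : ℤ)) =
        -(w0 q a b : ℤ) := by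
      rw [← sum_exp_eq hq hab hN, ← Finset.sum_neg_distrib]
      refine Finset.sum_congr rfl fun i _ => ?_
      ring
    rw [h5] at h4
    have h6 : (Matrix.of fun i j : Fin N =>
        (q : ℂ) ^ (-((gF q a b + (i : ℕ) : ℕ) : ℤ) + (nn q a b j : ℤ)) *
        Mt q a b (fun u => (q : ℂ) ^ kk q a b u * z u) i j).det = (q : ℂ) ^ (-(w0 q a b : ℤ)) *
        (trn (Mt q a b (fun u => (q : ℂ) ^ kk q a b u * z u)) N).det := h4
    rw [h6, ← mul_assoc]
    push_cast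
    rw [← zpow_natCast, ← zpow_add₀ hq0, add_neg_cancel, zpow_zero, one_mul]
  rw [h3'] at h2
  have h7 := RT.shrink (D := 1) (E := q ^ q) le_rfl (Nat.one_le_pow _ _ (zero_lt_one.trans hq)) h2
    (fun u => q ^ kk q a b u) (fun u => pow_dvd_pow q ((kk_le u).trans (Nat.sub_le _ _)))
  rw [one_mul] at h7
  have h8 : (fun z : Phi q a b → ℂ => (trn (Mt q a b z) N).det) = fun z : Phi q a b → ℂ =>
      (trn (Mt q a b (fun u => (q : ℂ) ^ kk q a b u * (z u / ((q ^ kk q a b u : ℕ) : ℂ)))) N).det := by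
    funext z
    congr 3
    funext u
    push_cast
    field_simp
  rw [h8]
  exact h7

end Pool.Agent.Helper13.LU
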