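import Pool.Agent.Helper13.LU.Tb
import Pool.Agent.Helper13.LT.Tc

/-!
PROJECT LT2, block F1-F3 for arbitrary `a`, `b` with `a + b` prime to `q`: the leading coefficient.
-/

set_option autoImplicit false

namespace Pool.Agent.Helper13.LU

open Finset Filter Topology
open Pool.Agent.Helper34.LT hiding Mt tauF Fac
open Pool.Agent.Helper65.LU Pool.Agent.Helper13.LT Pool.Agent.Helper11.LT

/-- `det_inv_fact` with `h j = g + N - 1 - nn j` and the rows in reverse order `r = N - 1 - i`. -/
theorem Cm_det {q a b : ℕ} (hq : 1 < q) (hab : Nat.Coprime (a + b) q) (N : ℕ) :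
    (trn (Cm q a b) N).det ≠ 0 := by
  have hj : ∀ j : Fin N, nn q a b j ≤ gF q a b + N - 1 := by
    intro j
    have h1 := nn_le hq hab (j : ℕ)
    have h2 := j.2
    omega
  have h1 : trn (Cm q a b) N = (Matrix.of fun r j : Fin N =>
      if (r : ℕ) ≤ gF q a b + N - 1 - nn q a b j then
        ((((gF q a b + N - 1 - nn q a b j) - r).factorial : ℂ))⁻¹ else 0).submatrix
      Fin.revPerm id := by
    ext i j
    have h2 := hj j
    have h4 := i.2
    have h5 : ((Fin.revPerm i : Fin N) : ℕ) = N - (i + 1) := by
      rw [Fin.revPerm_apply, Fin.val_rev]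
    rw [Matrix.submatrix_apply, Matrix.of_apply, id, h5]
    change (if nn q a b j ≤ gF q a b + i then
      (((gF q a b + i - nn q a b j).factorial : ℂ))⁻¹ else 0) = _
    by_cases h6 : nn q a b j ≤ gF q a b + i
    · rw [if_pos h6, if_pos (by omega)]
      have h7 : gF q a b + N - 1 - nn q a b j - (N - (i + 1)) =
        gF q a b + i - nn q a b j := by omega
      rw [h7]
    · rw [if_neg h6, if_neg (by omega)]
  rw [h1, Matrix.det_permute]
  refine mul_ne_zero ?_ (det_inv_fact (fun j => gF q a b + N - 1 - nn q a b j) ?_)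
  · exact_mod_cast (Equiv.Perm.sign _).ne_zero
  · intro x y hxy
    have h2 := hj x
    have h4 := hj y
    have h5 : nn q a b x = nn q a b y := by
      simp only [] at hxy
      omega
    exact Fin.ext ((nn_strictMono hq hab).injective h5)

end Pool.Agent.Helper13.LU
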