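import Pool.Agent.Helper13.LU.Tc
import Pool.Agent.Helper13.LU.Fac
import Pool.Agent.Helper13.LT.Rtl

/-!
PROJECT LT2, block F1-F3 for arbitrary `a`, `b` with `a + b` prime to `q`: the targets.
-/

set_option autoImplicit false

namespace Pool.Agent.Helper13.LU

open Finset Filter Topology
open Pool.Agent.Helper34.LT hiding Mt tauF Fac
open Pool.Agent.Helper65.LU Pool.Agent.Helper13.LT Pool.Agent.Helper11.LT

/-- `PS.line`, `det_line`, `one_order` with `H x = det (Gx x)`. -/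
theorem coef_ne {q a b : ℕ} (hq : 1 < q) (hab : Nat.Coprime (a + b) q) {N : ℕ} (hN : q ≤ N)
    {c : (Phi q a b → ℕ) → ℂ} (hc : PS c (Fn q a b N)) (u : Phi q a b) (hu : kk q a b u = 1) :
    c (Pi.single u (w0 q a b)) ≠ 0 := by
  have h1 : ∀ x : ℂ, HasSum (fun n : ℕ => c (Pi.single u n) * x ^ n)
      (Fn q a b N (Pi.single u x)) := fun x => hc.line u x
  have h2 := one_order (H := fun x => (Matrix.of fun i j : Fin N => Gx q a b i j x).det) h1
    (w0 q a b) (fun x hx => det_line hq hab hN u hu hx) ?_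
  · rw [h2.2]
    have h4 : (Matrix.of fun i j : Fin N => Gx q a b i j 0) = trn (Cm q a b) N := by
      ext i j
      simp only [Matrix.of_apply, trn]
      exact Gx_zero hq a b i j
    rw [h4]
    exact Cm_det hq hab N
  · simp only [Matrix.det_apply]
    refine tendsto_finsetSum _ fun σ _ => ?_
    refine Tendsto.const_smul ?_ _
    refine tendsto_finsetProd _ fun i _ => ?_
    simp only [Matrix.of_apply]
    exact Gx_cont hq a b _ _

theorem tau_rt' {q a b : ℕ} (hq : 1 < q) (hab : Nat.Coprime (a + b) q) :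
    RT (q ^ q) 0 (tauF q a b) := by
  have hD : 1 ≤ q ^ q := Nat.one_le_pow _ _ (zero_lt_one.trans hq)
  refine RT.lim hD (f := fun n => Fn q a b (n + q)) (fun n => ?_) fun R => ?_
  · exact Fn_RT hq hab (Nat.le_add_left _ _)
  · intro u hu
    exact (tendsto_add_atTop_nat q).eventually (Fn_unif hq hab R u hu)

theorem tau_diff (q a b : ℕ) (hq : q ≠ 0) (ha : ¬ q ∣ a) (hb : ¬ q ∣ b) (hab : Nat.Coprime (a + b) q) :
    Differentiable ℂ (tauF q a b) := by
  have hq1 := one_lt_of hq ha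
  exact RT.diff (Nat.one_le_pow _ _ (zero_lt_one.trans hq1)) (tau_rt' hq1 hab)

theorem tau_zero (q a b : ℕ) (hq : q ≠ 0) (ha : ¬ q ∣ a) (hb : ¬ q ∣ b) (hab : Nat.Coprime (a + b) q) :
    tauF q a b 0 = 0 := by
  have hq1 := one_lt_of hq ha
  have h := Fn_tendsto hq1 hab (0 : Phi q a b → ℂ)
  refine tendsto_nhds_unique h ?_
  refine tendsto_const_nhds.congr' ?_
  filter_upwards [eventually_gt_atTop 0] with N hN
  exact (det_zero hq1 hab (gF_pos hq1 ha hb hab) hN).symm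

/-- a uniform limit of `RT` functions, nonzero coefficients -/
theorem Td_lim {ι : Type} [Fintype ι] {D k : ℕ} (hD : 1 ≤ D) {f : ℕ → (ι → ℂ) → ℂ}
    {c : ℕ → (ι → ℕ) → ℂ} (hc : ∀ n, PS (c n) (f n))
    (hi : ∀ n, ∀ m : ι → ℕ, ∃ a : ℤ,
      c n m * ((D : ℂ) ^ (∑ u, m u + k) * ∏ u, ((m u).factorial : ℂ)) = a)
    {F : (ι → ℂ) → ℂ} (hF : ∀ R : ℝ, TendstoUniformlyOn f F atTop (Metric.closedBall 0 R))
    (m : ι → ℕ) (hm : ∀ n, c n m ≠ 0) : ∃ C : (ι → ℕ) → ℂ, PS C F ∧ C m ≠ 0 := by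
  obtain ⟨C, hC, hl⟩ := PS.lim hc hF
  refine ⟨C, hC, fun h0 => ?_⟩
  have h1 := (hl m).mul_const ((D : ℂ) ^ (∑ u, m u + k) * ∏ u, ((m u).factorial : ℂ))
  rw [h0, zero_mul] at h1
  have h2 := h1.norm
  rw [norm_zero] at h2
  have h3 : ∀ n, (1 : ℝ) ≤ ‖c n m * ((D : ℂ) ^ (∑ u, m u + k) * ∏ u, ((m u).factorial : ℂ))‖ := by
    intro n
    obtain ⟨a, ha⟩ := hi n m
    have hne : c n m * ((D : ℂ) ^ (∑ u, m u + k) * ∏ u, ((m u).factorial : ℂ)) ≠ 0 := by
      refine mul_ne_zero (hm n) (mul_ne_zero (pow_ne_zero _ ?_) ?_)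
      · exact_mod_cast (by omega : D ≠ 0)
      · exact Finset.prod_ne_zero_iff.2 fun u _ => by exact_mod_cast (m u).factorial_ne_zero
    rw [ha] at hne ⊢
    have ha0 : a ≠ 0 := by
      intro h
      exact hne (by rw [h]; simp)
    rw [Complex.norm_intCast]
    exact_mod_cast Int.one_le_abs ha0
  have h4 := ge_of_tendsto' h2 h3
  linarith

theorem tau_ne (q a b : ℕ) (hq : q ≠ 0) (ha : ¬ q ∣ a) (hb : ¬ q ∣ b) (hab : Nat.Coprime (a + b) q) :
    ∃ t : Phi q a b → ℂ, (∀ u : Phi q a b, ¬ Nat.Coprime u q → t u = 0) ∧ tauF q a b t ≠ 0 := by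
  have hq1 := one_lt_of hq ha
  have hD : 1 ≤ q ^ q := Nat.one_le_pow _ _ (zero_lt_one.trans hq1)
  obtain ⟨u, hu, huq⟩ := exists_kk_one hq1 ha hb hab
  have hRT : ∀ n, RT (q ^ q) 0 (Fn q a b (n + q)) := fun n =>
    Fn_RT hq1 hab (Nat.le_add_left _ _)
  choose c hc hi using fun n => (RT_iff hD).1 (hRT n)
  obtain ⟨C, hC, hCm⟩ := Td_lim hD hc hi (F := tauF q a b) (fun R => by
    intro v hv
    exact (tendsto_add_atTop_nat q).eventually (Fn_unif hq1 hab R v hv))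
    (Pi.single u (w0 q a b))
    (fun n => coef_ne hq1 hab (Nat.le_add_left _ _) (hc n) u hu)
  by_contra hcon
  push Not at hcon
  have h1 : ∀ x : ℂ, tauF q a b (Pi.single u x) = 0 := by
    intro x
    refine hcon _ fun v hv => ?_
    refine Pi.single_eq_of_ne ?_ _
    rintro rfl
    exact hv huq
  have h2 : ∀ x : ℂ, HasSum (fun n : ℕ => C (Pi.single u n) * x ^ n) 0 := by
    intro x
    rw [← h1 x]
    exact hC.line u x
  have h4 := one_unique (c := fun n => C (Pi.single u n)) (d := fun _ => 0) (f := fun _ => 0) h2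
    (fun x => by simpa using (hasSum_zero : HasSum (fun _ : ℕ => (0 : ℂ)) 0))
  exact hCm (congrFun h4 (w0 q a b))

theorem tau_rt (q a b : ℕ) (hq : q ≠ 0) (ha : ¬ q ∣ a) (hb : ¬ q ∣ b) (hab : Nat.Coprime (a + b) q) :
    ∃ D : ℕ, 1 ≤ D ∧ RT D 1 (tauF q a b) := by
  have hq1 := one_lt_of hq ha
  have hD : 1 ≤ q ^ q := Nat.one_le_pow _ _ (zero_lt_one.trans hq1)
  exact ⟨q ^ q, hD, RT.mono hD hD dvd_rfl (Nat.zero_le 1) (tau_rt' hq1 hab)⟩

theorem tau_sym (q a b : ℕ) (hq : q ≠ 0) (ha : ¬ q ∣ a) (hb : ¬ q ∣ b) (hab : Nat.Coprime (a + b) q) :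
    ∃ w : ℕ, ∀ z : Phi q a b → ℂ,
      tauF q a b (fun u => zt q ^ ((u : ℕ) * (a + b)) * z u) = zt q ^ w * tauF q a b z := by
  have hq1 := one_lt_of hq ha
  refine ⟨w0 q a b, fun z => ?_⟩
  have h0 : (fun u : Phi q a b => zt q ^ ((u : ℕ) * (a + b)) * z u) =
      fun u : Phi q a b => zt q ^ kk q a b u * z u := funext fun u => by rw [zt_pow_kk hq1 u]
  rw [h0]
  have h1 := Fn_tendsto hq1 hab (fun u : Phi q a b => zt q ^ kk q a b u * z u)
  have h2 := (Fn_tendsto hq1 hab z).const_mul (zt q ^ w0 q a b)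
  refine tendsto_nhds_unique h1 (h2.congr' ?_)
  filter_upwards [eventually_ge_atTop q] with N hN
  exact (det_root hq1 hab hN (zt_pow_q hq1) z).symm

end Pool.Agent.Helper13.LU
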