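import Pool.Agent.Helper13.LU.S
import Pool.Agent.Helper13.LU.Cc
import Pool.Agent.Helper13.LT.Mx

/-!
PROJECT LT2, block F1-F3 for arbitrary `a`, `b` with `a + b` prime to `q`: the unipotent matrices.
-/

set_option autoImplicit false

namespace Pool.Agent.Helper13.LU

open Finset Filter Topology
open Pool.Agent.Helper34.LT hiding Mt tauF Fac
open Pool.Agent.Helper65.LU Pool.Agent.Helper13.LT Pool.Agent.Helper11.LT

/-- `g = gF q a b`. The columns `j < q` are those of the identity, in column `j ≥ q` the entry in row `j - q p` is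
`c (bt (g + j)) p`. -/
noncomputable def Tq (q a b : ℕ) (c : ℝ → ℕ → ℝ) : Mat := fun i j =>
  if j < q then (if i = j then 1 else 0)
  else if i ≤ j ∧ q ∣ j - i then ((c (bt q a b (gF q a b + j)) ((j - i) / q) : ℝ) : ℂ) else 0

theorem Tq_upp {q a b : ℕ} (c : ℝ → ℕ → ℝ) (i j : ℕ) (h : j < i) : Tq q a b c i j = 0 := by
  unfold Tq
  rw [if_neg (show ¬ i = j by omega), if_neg (show ¬ (i ≤ j ∧ q ∣ j - i) from fun h1 => by omega)]
  split_ifs <;> rfl

theorem Tq_dia {q a b : ℕ} {c : ℝ → ℕ → ℝ} (hc : ∀ β, c β 0 = 1) (i : ℕ) :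
    Tq q a b c i i = 1 := by
  have h : i ≤ i ∧ q ∣ i - i := ⟨le_rfl, by rw [Nat.sub_self]; exact dvd_zero q⟩
  unfold Tq
  rw [if_pos h, if_pos rfl, Nat.sub_self, Nat.zero_div, hc, Complex.ofReal_one]
  split_ifs <;> rfl

private theorem Tq_nz {q a b : ℕ} {c : ℝ → ℕ → ℝ} {i j : ℕ} (h : Tq q a b c i j ≠ 0) :
    i ≤ j ∧ q ∣ j - i := by
  unfold Tq at h
  split_ifs at h with h1 h2 h3
  · rw [h2, Nat.sub_self]
    exact ⟨le_rfl, dvd_zero q⟩
  · exact absurd rfl h
  · exact h3
  · exact absurd rfl h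

private theorem Tq_val {q a b : ℕ} (hq : 0 < q) {c : ℝ → ℕ → ℝ} {i p : ℕ}
    (h : ¬ i + q * p < q) :
    Tq q a b c i (i + q * p) = ((c (bt q a b (gF q a b + (i + q * p))) p : ℝ) : ℂ) := by
  unfold Tq
  rw [if_neg h, if_pos ⟨Nat.le_add_right _ _, by rw [Nat.add_sub_cancel_left]; exact dvd_mul_right q p⟩,
    Nat.add_sub_cancel_left, Nat.mul_div_cancel_left p hq]

private theorem Tq_val' {q a b : ℕ} (hq : 0 < q) {c : ℝ → ℕ → ℝ} (hc : ∀ β, c β 0 = 1)
    {i p r : ℕ} (h : p ≤ r) :
    Tq q a b c i (i + q * p) = ((c (bt q a b (gF q a b + (i + q * r))) p : ℝ) : ℂ) := by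
  by_cases h1 : i + q * p < q
  · have h2 : p = 0 := by
      rcases Nat.eq_zero_or_pos p with h3 | h3
      · exact h3
      · have : q * 1 ≤ q * p := Nat.mul_le_mul_left q h3
        omega
    rw [h2, mul_zero, add_zero, Tq_dia hc, hc, Complex.ofReal_one]
  · rw [Tq_val hq h1]
    have h2 : gF q a b + (i + q * p) ≡ gF q a b + (i + q * r) [MOD q] := by
      obtain ⟨s, rfl⟩ := Nat.exists_eq_add_of_le h
      have h3 : gF q a b + (i + q * (p + s)) = gF q a b + (i + q * p) + q * s := by ring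
      rw [h3]
      unfold Nat.ModEq
      rw [Nat.add_mul_mod_self_left]
    rw [bt_congr h2]

/-- PROOF. Entry `(i, j)`. If `j < q` only `k = j` contributes. Let `j ≥ q`. A nonzero term has
`k ≤ j`, `q ∣ j - k`, and either `k ≥ q`, `i ≤ k`, `q ∣ k - i` or `k = i < q`. So all terms vanish unless
`j = i + q p`, and then `k = i + q p'`, `p' ≤ p`. For these `k` the left entry is `c β p'` with
`β = bt (g + j)`: if `k ≥ q` because `bt (g + k) = bt (g + j)` (`bt_congr`), if `k < q` because then `p' = 0`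
 and `c β 0 = 1`. The right entry is `d β (p - p')`. So the sum is the convolution. -/
theorem Tq_mul {q a b : ℕ} (hq : 0 < q) {c d : ℝ → ℕ → ℝ} (hc : ∀ β, c β 0 = 1)
    (hd : ∀ β, d β 0 = 1)
    (hcd : ∀ β p, ∑ i ∈ antidiagonal p, c β i.1 * d β i.2 = if p = 0 then 1 else 0) :
    mmul (Tq q a b c) (Tq q a b d) = mone := by
  funext i j
  change ∑' k, Tq q a b c i k * Tq q a b d k j = if i = j then 1 else 0
  by_cases hj : j < q
  · have h1 : ∀ k, Tq q a b d k j = if k = j then 1 else 0 := fun k => by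
      unfold Tq
      rw [if_pos hj]
    rw [tsum_eq_single j fun k hk => by rw [h1, if_neg hk, mul_zero], h1, if_pos rfl, mul_one]
    unfold Tq
    rw [if_pos hj]
  · by_cases hij : i ≤ j ∧ q ∣ j - i
    · obtain ⟨h1, p, h2⟩ := hij
      obtain rfl : j = i + q * p := by omega
      have hsum : ∑' k, Tq q a b c i k * Tq q a b d k (i + q * p) =
          ∑ r ∈ range (p + 1), Tq q a b c i (i + q * r) * Tq q a b d (i + q * r) (i + q * p) := by
        have hinj : Set.InjOn (fun r : ℕ => i + q * r) (range (p + 1) : Set ℕ) := by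
          intro x _ y _ hxy
          have h3 : q * x = q * y := Nat.add_left_cancel hxy
          exact Nat.eq_of_mul_eq_mul_left hq h3
        rw [← Finset.sum_image (f := fun k => Tq q a b c i k * Tq q a b d k (i + q * p)) hinj]
        refine tsum_eq_sum fun k hk => ?_
        by_contra h0
        obtain ⟨h3, r, h4⟩ := Tq_nz (left_ne_zero_of_mul h0)
        have h5 := (Tq_nz (right_ne_zero_of_mul h0)).1
        apply hk
        rw [Finset.mem_image]
        refine ⟨r, ?_, by omega⟩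
        rw [Finset.mem_range]
        by_contra h6
        have h7 : q * (p + 1) ≤ q * r := Nat.mul_le_mul_left q (by omega)
        rw [mul_add] at h7
        omega
      rw [hsum]
      have hterm : ∀ r ∈ range (p + 1),
          Tq q a b c i (i + q * r) * Tq q a b d (i + q * r) (i + q * p) =
          ((c (bt q a b (gF q a b + (i + q * p))) r *
            d (bt q a b (gF q a b + (i + q * p))) (p - r) : ℝ) : ℂ) := by
        intro r hr
        rw [Finset.mem_range] at hr
        obtain ⟨s, rfl⟩ := Nat.exists_eq_add_of_le (show r ≤ p by omega)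
        rw [Tq_val' hq hc (show r ≤ r + s by omega)]
        have h3 : i + q * (r + s) = (i + q * r) + q * s := by ring
        rw [Nat.add_sub_cancel_left]
        have h4 : Tq q a b d (i + q * r) (i + q * (r + s)) =
            ((d (bt q a b (gF q a b + (i + q * (r + s)))) s : ℝ) : ℂ) := by
          rw [h3]
          refine Tq_val hq ?_
          rw [← h3]
          exact hj
        rw [h4, Complex.ofReal_mul]
      rw [Finset.sum_congr rfl hterm, ← Complex.ofReal_sum]
      have h5 := hcd (bt q a b (gF q a b + (i + q * p))) p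
      rw [Finset.Nat.sum_antidiagonal_eq_sum_range_succ
        (f := fun x y => c (bt q a b (gF q a b + (i + q * p))) x *
          d (bt q a b (gF q a b + (i + q * p))) y)] at h5
      rw [← Nat.succ_eq_add_one, h5]
      by_cases hp : p = 0
      · rw [if_pos hp, if_pos (by rw [hp, mul_zero, add_zero]), Complex.ofReal_one]
      · have h6 : 0 < q * p := Nat.mul_pos hq (Nat.pos_of_ne_zero hp)
        rw [if_neg hp, if_neg (by omega), Complex.ofReal_zero]
    · have hne : i ≠ j := by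
        rintro rfl
        exact hij ⟨le_rfl, by rw [Nat.sub_self]; exact dvd_zero q⟩
      rw [if_neg hne]
      have h0 : ∀ k, Tq q a b c i k * Tq q a b d k j = 0 := by
        intro k
        by_contra h0
        obtain ⟨h1, h2⟩ := Tq_nz (left_ne_zero_of_mul h0)
        obtain ⟨h3, h4⟩ := Tq_nz (right_ne_zero_of_mul h0)
        apply hij
        refine ⟨h1.trans h3, ?_⟩
        have h5 : j - i = (k - i) + (j - k) := by omega
        rw [h5]
        exact dvd_add h2 h4
      rw [tsum_congr h0, tsum_zero]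

private theorem Tq_bd' {q a b : ℕ} (hq : 0 < q) {c : ℝ → ℕ → ℝ}
    (hc : ∀ β, 0 ≤ β → β ≤ 1 → ∀ p, |c β p| ≤ 1) : Bd (wt (Tq q a b c)) := by
  have h1 : ∀ n, bt q a b n ≤ 1 := by
    intro n
    unfold bt al
    have h0 : (0 : ℝ) < q := by exact_mod_cast hq
    rw [div_le_one h0]
    exact_mod_cast (Nat.mod_lt _ hq).le
  have h2 : ∀ i j, ‖Tq q a b c i j‖ ≤ 1 := by
    intro i j
    unfold Tq
    split_ifs
    · rw [norm_one]
    · rw [norm_zero]
      exact zero_le_one
    · rw [Complex.norm_real]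
      exact hc _ (bt_nonneg q a b _) (h1 _) _
    · rw [norm_zero]
      exact zero_le_one
  refine ⟨_, bdC_upper summable_geometric_two (fun n => by positivity) (fun i j hij => ?_)
    (fun i j hij => ?_)⟩
  · change ‖(2 : ℂ) ^ ((i : ℤ) - (j : ℤ)) * Tq q a b c i j‖ ≤ (1 / 2 : ℝ) ^ (j - i)
    obtain ⟨m, rfl⟩ := Nat.exists_eq_add_of_le hij
    have h3 : ‖(2 : ℂ) ^ ((i : ℤ) - ((i + m : ℕ) : ℤ))‖ = (1 / 2 : ℝ) ^ m := by
      have h4 : (i : ℤ) - ((i + m : ℕ) : ℤ) = -(m : ℤ) := by
        push_cast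
        ring
      rw [h4, zpow_neg, zpow_natCast, norm_inv, norm_pow, Complex.norm_ofNat, one_div, inv_pow]
    rw [norm_mul, h3, Nat.add_sub_cancel_left]
    exact mul_le_of_le_one_right (by positivity) (h2 _ _)
  · change (2 : ℂ) ^ ((i : ℤ) - (j : ℤ)) * Tq q a b c i j = 0
    rw [Tq_upp c i j hij, mul_zero]

/-- PROOF. `bdC_upper` with `B n = 2^(-n)`: `‖wt A i j‖ = 2^(i-j) ‖A i j‖`, `‖A i j‖ ≤ 1`
(`bt_nonneg`, `bt_lt_one`). -/
theorem Tq_bd {q a b : ℕ} (hq : 1 < q) {c : ℝ → ℕ → ℝ}
    (hc : ∀ β, 0 ≤ β → β ≤ 1 → ∀ p, |c β p| ≤ 1) : Bd (wt (Tq q a b c)) :=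
  Tq_bd' (zero_lt_one.trans hq) hc

end Pool.Agent.Helper13.LU
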